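import Pool.Agent.Lib_helper8.QABCorr

/-!
# Pairs of points of the cube with a vector of correlations

(Adapted from `Lib_helper8/QABCorr.lean`: the correlation may depend on the coordinate.)
-/

set_option autoImplicit false
set_option linter.unusedSectionVars false

open Finset

namespace Pool.Agent.Lib_helper93.QB

open Pool.Agent.Lib_helper8.QAA

variable {I : Type} [Fintype I] [DecidableEq I]

/-- The (unnormalized) weight of a pair with the correlations `ρ i`. -/
noncomputable def vwt (ρ : I → ℝ) (x y : I → Bool) : ℝ :=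
  ∏ i, (if x i = y i then 1 + ρ i else 1 - ρ i)

/-- The weight with coordinate `i` left out. -/
noncomputable def vwti (ρ : I → ℝ) (i : I) (x y : I → Bool) : ℝ :=
  ∏ k ∈ Finset.univ.erase i, (if x k = y k then 1 + ρ k else 1 - ρ k)

/-- Expectation over a pair `(x, y)` of uniform points with correlation `ρ i` in coordinate `i`. -/
noncomputable def vcorr (ρ : I → ℝ) (F : (I → Bool) → (I → Bool) → ℝ) : ℝ :=
  ((4 : ℝ) ^ (Fintype.card I))⁻¹ * ∑ x, ∑ y, vwt ρ x y * F x y

lemma vwt_eq (ρ : I → ℝ) (i : I) (x y : I → Bool) :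
    vwt ρ x y = (if x i = y i then 1 + ρ i else 1 - ρ i) * vwti ρ i x y := by
  unfold vwt vwti
  exact (Finset.mul_prod_erase Finset.univ
    (fun k => if x k = y k then 1 + ρ k else 1 - ρ k) (Finset.mem_univ i)).symm

lemma vwt_nonneg {ρ : I → ℝ} (h0 : ∀ i, 0 ≤ ρ i) (h1 : ∀ i, ρ i ≤ 1) (x y : I → Bool) : 0 ≤ vwt ρ x y :=
  Finset.prod_nonneg fun k _ => by split_ifs <;> linarith [h0 k, h1 k]

lemma vwti_nonneg {ρ : I → ℝ} (h0 : ∀ i, 0 ≤ ρ i) (h1 : ∀ i, ρ i ≤ 1) (i : I) (x y : I → Bool) :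
    0 ≤ vwti ρ i x y :=
  Finset.prod_nonneg fun k _ => by split_ifs <;> linarith [h0 k, h1 k]

lemma vcorr_nonneg {ρ : I → ℝ} (h0 : ∀ i, 0 ≤ ρ i) (h1 : ∀ i, ρ i ≤ 1) {F : (I → Bool) → (I → Bool) → ℝ}
    (h : ∀ x y, 0 ≤ F x y) : 0 ≤ vcorr ρ F :=
  mul_nonneg (by positivity) (Finset.sum_nonneg fun x _ => Finset.sum_nonneg fun y _ =>
    mul_nonneg (vwt_nonneg h0 h1 x y) (h x y))

lemma vcorr_mono {ρ : I → ℝ} (h0 : ∀ i, 0 ≤ ρ i) (h1 : ∀ i, ρ i ≤ 1) {F G : (I → Bool) → (I → Bool) → ℝ}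
    (h : ∀ x y, F x y ≤ G x y) : vcorr ρ F ≤ vcorr ρ G :=
  mul_le_mul_of_nonneg_left (Finset.sum_le_sum fun x _ => Finset.sum_le_sum fun y _ =>
    mul_le_mul_of_nonneg_left (h x y) (vwt_nonneg h0 h1 x y)) (by positivity)

lemma vcorr_sum {α : Type} (s : Finset α) (ρ : I → ℝ) (F : α → (I → Bool) → (I → Bool) → ℝ) :
    vcorr ρ (fun x y => ∑ a ∈ s, F a x y) = ∑ a ∈ s, vcorr ρ (F a) := by
  unfold vcorr
  rw [← Finset.mul_sum]
  congr 1
  symm
  rw [Finset.sum_comm]
  refine Finset.sum_congr rfl fun x _ => ?_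
  rw [Finset.sum_comm]
  refine Finset.sum_congr rfl fun y _ => ?_
  rw [Finset.mul_sum]

lemma vcorr_const_mul (ρ : I → ℝ) (c : ℝ) (F : (I → Bool) → (I → Bool) → ℝ) :
    vcorr ρ (fun x y => c * F x y) = c * vcorr ρ F := by
  unfold vcorr
  rw [mul_left_comm c]
  congr 1
  rw [Finset.mul_sum]
  refine Finset.sum_congr rfl fun x _ => ?_
  rw [Finset.mul_sum]
  refine Finset.sum_congr rfl fun y _ => ?_
  ring

lemma vcorr_zero (g h : (I → Bool) → ℝ) : vcorr (fun _ => 0) (fun x y => g x * h y) = ex g * ex h := by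
  have h1 : ∀ x y : I → Bool, vwt (fun _ => 0) x y = 1 := by
    intro x y
    unfold vwt
    apply Finset.prod_eq_one
    intro i _
    split_ifs <;> norm_num
  unfold vcorr ex
  simp_rw [h1, one_mul]
  rw [← Finset.sum_mul_sum]
  have h2 : ((4 : ℝ) ^ Fintype.card I) = 2 ^ Fintype.card I * 2 ^ Fintype.card I := by
    rw [← mul_pow]; norm_num
  rw [h2, mul_inv]
  ring

lemma vcorr_one (F : (I → Bool) → (I → Bool) → ℝ) : vcorr (fun _ => 1) F = ex (fun x => F x x) := by
  have h1 : ∀ x y : I → Bool, vwt (fun _ => 1) x y = if x = y then (2 : ℝ) ^ Fintype.card I else 0 := by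
    intro x y
    unfold vwt
    split_ifs with h
    · subst h
      simp only [if_true]
      rw [Finset.prod_const, Finset.card_univ]
      norm_num
    · obtain ⟨i, hi⟩ := Function.ne_iff.1 h
      apply Finset.prod_eq_zero (Finset.mem_univ i)
      rw [if_neg hi]
      norm_num
  unfold vcorr ex
  simp_rw [h1, ite_mul, zero_mul]
  simp only [Finset.sum_ite_eq, Finset.mem_univ, if_true]
  rw [← Finset.mul_sum, ← mul_assoc]
  congr 1
  have h2 : ((4 : ℝ) ^ Fintype.card I) = 2 ^ Fintype.card I * 2 ^ Fintype.card I := by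
    rw [← mul_pow]; norm_num
  rw [h2]
  field_simp

lemma vwti_flip_left (ρ : I → ℝ) (i : I) (x y : I → Bool) : vwti ρ i (flip i x) y = vwti ρ i x y := by
  unfold vwti
  refine Finset.prod_congr rfl fun k hk => ?_
  rw [flip_apply_of_ne (Finset.ne_of_mem_erase hk)]

lemma vwti_flip_right (ρ : I → ℝ) (i : I) (x y : I → Bool) : vwti ρ i x (flip i y) = vwti ρ i x y := by
  unfold vwti
  refine Finset.prod_congr rfl fun k hk => ?_
  rw [flip_apply_of_ne (Finset.ne_of_mem_erase hk)]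

lemma vwt_flip_both (ρ : I → ℝ) (i : I) (x y : I → Bool) :
    vwt ρ (flip i x) (flip i y) = vwt ρ x y := by
  rw [vwt_eq ρ i, vwt_eq ρ i x y, vwti_flip_left, vwti_flip_right, flip_apply_self, flip_apply_self]
  congr 1
  cases x i <;> cases y i <;> simp

lemma vcorr_flip_both (ρ : I → ℝ) (i : I) (F : (I → Bool) → (I → Bool) → ℝ) :
    vcorr ρ (fun x y => F (flip i x) (flip i y)) = vcorr ρ F := by
  unfold vcorr
  congr 1
  rw [← sum_flip_left i, ← sum_flip_right i (fun x y => vwt ρ (flip i x) y * _)]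
  refine Finset.sum_congr rfl fun x _ => Finset.sum_congr rfl fun y _ => ?_
  show vwt ρ (flip i x) (flip i y) * F (flip i (flip i x)) (flip i (flip i y)) = _
  rw [vwt_flip_both, Lib_helper8.QAA.flip_flip, Lib_helper8.QAA.flip_flip]

/-- Cauchy–Schwarz. -/
lemma vcorr_sqrt_mul_sqrt {ρ : I → ℝ} (h0 : ∀ i, 0 ≤ ρ i) (h1 : ∀ i, ρ i ≤ 1) {A B : (I → Bool) → (I → Bool) → ℝ}
    (hA : ∀ x y, 0 ≤ A x y) (hB : ∀ x y, 0 ≤ B x y) :
    vcorr ρ (fun x y => √(A x y) * √(B x y)) ≤ √(vcorr ρ A) * √(vcorr ρ B) := by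
  unfold vcorr
  have h4 : (0 : ℝ) ≤ ((4 : ℝ) ^ Fintype.card I)⁻¹ := by positivity
  rw [Real.sqrt_mul h4, Real.sqrt_mul h4, mul_mul_mul_comm, Real.mul_self_sqrt h4]
  apply mul_le_mul_of_nonneg_left _ h4
  rw [← Fintype.sum_prod_type' (f := fun x y => vwt ρ x y * (√(A x y) * √(B x y))),
    ← Fintype.sum_prod_type' (f := fun x y => vwt ρ x y * A x y),
    ← Fintype.sum_prod_type' (f := fun x y => vwt ρ x y * B x y)]
  have h2 := Real.sum_sqrt_mul_sqrt_le (Finset.univ : Finset ((I → Bool) × (I → Bool)))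
    (f := fun z => vwt ρ z.1 z.2 * A z.1 z.2) (g := fun z => vwt ρ z.1 z.2 * B z.1 z.2)
    (fun z => mul_nonneg (vwt_nonneg h0 h1 _ _) (hA _ _))
    (fun z => mul_nonneg (vwt_nonneg h0 h1 _ _) (hB _ _))
  refine le_trans (le_of_eq ?_) h2
  refine Finset.sum_congr rfl fun z _ => ?_
  have hw := vwt_nonneg h0 h1 z.1 z.2
  rw [Real.sqrt_mul hw, Real.sqrt_mul hw, mul_mul_mul_comm, Real.mul_self_sqrt hw]

/-- The derivative of the correlated expectation in direction `i`. -/
noncomputable def vdcorr (i : I) (ρ : I → ℝ) (F : (I → Bool) → (I → Bool) → ℝ) : ℝ :=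
  ((4 : ℝ) ^ (Fintype.card I))⁻¹ * ∑ x, ∑ y, sg i x y * vwti ρ i x y * F x y

lemma hasDerivAt_vwt (ρ0 σ : I → ℝ) (x y : I → Bool) (u : ℝ) :
    HasDerivAt (fun u : ℝ => vwt (fun i => ρ0 i + u * σ i) x y)
      (∑ i, σ i * (sg i x y * vwti (fun i => ρ0 i + u * σ i) i x y)) u := by
  unfold vwt
  have h : ∀ i ∈ (Finset.univ : Finset I),
      HasDerivAt (fun u : ℝ => if x i = y i then 1 + (ρ0 i + u * σ i) else 1 - (ρ0 i + u * σ i))
        (σ i * sg i x y) u := by
    intro i _
    have h0 : HasDerivAt (fun u : ℝ => ρ0 i + u * σ i) (σ i) u := by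
      simpa using ((hasDerivAt_id u).mul_const (σ i)).const_add (ρ0 i)
    unfold sg
    split_ifs
    · simpa using h0.const_add 1
    · simpa using h0.const_sub 1
  have h2 := HasDerivAt.fun_finsetProd h
  refine h2.congr_deriv ?_
  refine Finset.sum_congr rfl fun i _ => ?_
  unfold vwti
  rw [smul_eq_mul]
  ring

lemma hasDerivAt_vcorr (ρ0 σ : I → ℝ) (F : (I → Bool) → (I → Bool) → ℝ) (u : ℝ) :
    HasDerivAt (fun u : ℝ => vcorr (fun i => ρ0 i + u * σ i) F)
      (∑ i, σ i * vdcorr i (fun i => ρ0 i + u * σ i) F) u := by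
  unfold vcorr
  have h1 : HasDerivAt (fun u : ℝ => ∑ x, ∑ y, vwt (fun i => ρ0 i + u * σ i) x y * F x y)
      (∑ x, ∑ y, (∑ i, σ i * (sg i x y * vwti (fun i => ρ0 i + u * σ i) i x y)) * F x y) u := by
    apply HasDerivAt.fun_sum
    intro x _
    apply HasDerivAt.fun_sum
    intro y _
    exact (hasDerivAt_vwt ρ0 σ x y u).mul_const _
  refine (h1.const_mul _).congr_deriv ?_
  unfold vdcorr
  have h2 : ∀ i, σ i * (((4 : ℝ) ^ (Fintype.card I))⁻¹ *
      ∑ x, ∑ y, sg i x y * vwti (fun i => ρ0 i + u * σ i) i x y * F x y) =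
      ((4 : ℝ) ^ (Fintype.card I))⁻¹ *
      ∑ x, ∑ y, σ i * (sg i x y * vwti (fun i => ρ0 i + u * σ i) i x y) * F x y := by
    intro i
    rw [mul_left_comm, Finset.mul_sum]
    congr 1
    refine Finset.sum_congr rfl fun x _ => ?_
    rw [Finset.mul_sum]
    refine Finset.sum_congr rfl fun y _ => ?_
    ring
  simp_rw [h2]
  rw [← Finset.mul_sum]
  congr 1
  symm
  rw [Finset.sum_comm]
  refine Finset.sum_congr rfl fun x _ => ?_
  rw [Finset.sum_comm]
  refine Finset.sum_congr rfl fun y _ => ?_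
  rw [Finset.sum_mul]

/-- **The sign trick.** If `g x - g x^i = a x - a x^i` with `a x + a x^i ≥ 0`, and similarly
for `h` and `b`, then the derivative of `E_ρ g(x) h(y)` in direction `i` is at most
`2 E_ρ |a(x)| |b(y)|`. -/
lemma vdcorr_le {ρ : I → ℝ} (h0 : ∀ i, 0 ≤ ρ i) (h1 : ∀ i, ρ i ≤ 1) (i : I) (g h a b : (I → Bool) → ℝ)
    (hg : ∀ x, g x - g (flip i x) = a x - a (flip i x)) (ha : ∀ x, 0 ≤ a x + a (flip i x))
    (hh : ∀ x, h x - h (flip i x) = b x - b (flip i x)) (hb : ∀ x, 0 ≤ b x + b (flip i x)) :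
    vdcorr i ρ (fun x y => g x * h y) ≤ 2 * vcorr ρ (fun x y => |a x| * |b y|) := by
  unfold vdcorr vcorr
  rw [mul_left_comm]
  apply mul_le_mul_of_nonneg_left _ (by positivity)
  set S := ∑ x, ∑ y, sg i x y * vwti ρ i x y * (g x * h y) with hS
  -- symmetrization
  have s1 : S = - ∑ x, ∑ y, sg i x y * vwti ρ i x y * (g (flip i x) * h y) := by
    rw [hS, ← sum_flip_left i, ← Finset.sum_neg_distrib]
    refine Finset.sum_congr rfl fun x _ => ?_
    rw [← Finset.sum_neg_distrib]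
    refine Finset.sum_congr rfl fun y _ => ?_
    rw [sg_flip_left, vwti_flip_left]
    ring
  have s2 : S = - ∑ x, ∑ y, sg i x y * vwti ρ i x y * (g x * h (flip i y)) := by
    rw [hS, ← sum_flip_right i, ← Finset.sum_neg_distrib]
    refine Finset.sum_congr rfl fun x _ => ?_
    rw [← Finset.sum_neg_distrib]
    refine Finset.sum_congr rfl fun y _ => ?_
    rw [sg_flip_right, vwti_flip_right]
    ring
  have s3 : S = ∑ x, ∑ y, sg i x y * vwti ρ i x y * (g (flip i x) * h (flip i y)) := by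
    rw [s1, ← sum_flip_right i, ← Finset.sum_neg_distrib]
    refine Finset.sum_congr rfl fun x _ => ?_
    rw [← Finset.sum_neg_distrib]
    refine Finset.sum_congr rfl fun y _ => ?_
    rw [sg_flip_right, vwti_flip_right]
    ring
  have s4 : 4 * S = ∑ x, ∑ y, sg i x y * vwti ρ i x y *
      ((g x - g (flip i x)) * (h y - h (flip i y))) := by
    have : 4 * S = S + S + S + S := by ring
    rw [this]
    conv_lhs =>
      rw [show S + S + S + S = (∑ x, ∑ y, sg i x y * vwti ρ i x y * (g x * h y)) +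
        (- ∑ x, ∑ y, sg i x y * vwti ρ i x y * (g (flip i x) * h y)) +
        (- ∑ x, ∑ y, sg i x y * vwti ρ i x y * (g x * h (flip i y))) +
        (∑ x, ∑ y, sg i x y * vwti ρ i x y * (g (flip i x) * h (flip i y))) by
          rw [← s1, ← s2, ← s3]]
    rw [← Finset.sum_neg_distrib, ← Finset.sum_neg_distrib, ← Finset.sum_add_distrib,
      ← Finset.sum_add_distrib, ← Finset.sum_add_distrib]
    refine Finset.sum_congr rfl fun x _ => ?_
    rw [← Finset.sum_neg_distrib, ← Finset.sum_neg_distrib, ← Finset.sum_add_distrib,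
      ← Finset.sum_add_distrib, ← Finset.sum_add_distrib]
    refine Finset.sum_congr rfl fun y _ => ?_
    ring
  -- restriction to `x i = y i`
  have s5 : ∑ x, ∑ y, vwti ρ i x y * ((g x - g (flip i x)) * (h y - h (flip i y))) = 0 := by
    have : ∑ x, ∑ y, vwti ρ i x y * ((g x - g (flip i x)) * (h y - h (flip i y))) =
        - ∑ x, ∑ y, vwti ρ i x y * ((g x - g (flip i x)) * (h y - h (flip i y))) := by
      conv_lhs => rw [← sum_flip_left i]
      rw [← Finset.sum_neg_distrib]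
      refine Finset.sum_congr rfl fun x _ => ?_
      rw [← Finset.sum_neg_distrib]
      refine Finset.sum_congr rfl fun y _ => ?_
      rw [vwti_flip_left, Lib_helper8.QAA.flip_flip]
      ring
    linarith
  have s6 : 2 * S = ∑ x, ∑ y, (if x i = y i then 1 else 0) * vwti ρ i x y *
      ((g x - g (flip i x)) * (h y - h (flip i y))) := by
    have h2 : (∑ x, ∑ y, sg i x y * vwti ρ i x y *
        ((g x - g (flip i x)) * (h y - h (flip i y)))) +
        (∑ x, ∑ y, vwti ρ i x y * ((g x - g (flip i x)) * (h y - h (flip i y)))) =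
        2 * ∑ x, ∑ y, (if x i = y i then 1 else 0) * vwti ρ i x y *
        ((g x - g (flip i x)) * (h y - h (flip i y))) := by
      rw [← Finset.sum_add_distrib, Finset.mul_sum]
      refine Finset.sum_congr rfl fun x _ => ?_
      rw [← Finset.sum_add_distrib, Finset.mul_sum]
      refine Finset.sum_congr rfl fun y _ => ?_
      unfold sg
      split_ifs <;> ring
    rw [s5, ← s4] at h2
    linarith
  have s7 : 2 * S ≤ ∑ x, ∑ y, (if x i = y i then 1 else 0) * vwti ρ i x y *
      (2 * (a x * b y + a (flip i x) * b (flip i y))) := by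
    rw [s6]
    refine Finset.sum_le_sum fun x _ => Finset.sum_le_sum fun y _ => ?_
    have hw := vwti_nonneg h0 h1 i x y
    apply mul_le_mul_of_nonneg_left
    · rw [hg, hh]
      nlinarith [mul_nonneg (ha x) (hb y)]
    · split_ifs <;> simp [hw]
  have s8 : ∑ x, ∑ y, (if x i = y i then 1 else 0) * vwti ρ i x y *
      (2 * (a x * b y + a (flip i x) * b (flip i y))) =
      4 * ∑ x, ∑ y, (if x i = y i then 1 else 0) * vwti ρ i x y * (a x * b y) := by
    have e1 : ∑ x, ∑ y, (if x i = y i then 1 else 0) * vwti ρ i x y * (a x * b y) =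
        ∑ x, ∑ y, (if x i = y i then 1 else 0) * vwti ρ i x y *
          (a (flip i x) * b (flip i y)) := by
      conv_lhs => rw [← sum_flip_left i, ← sum_flip_right i]
      refine Finset.sum_congr rfl fun x _ => Finset.sum_congr rfl fun y _ => ?_
      rw [vwti_flip_left, vwti_flip_right, flip_apply_self, flip_apply_self]
      congr 2
      cases x i <;> cases y i <;> simp
    have e2 : 4 * ∑ x, ∑ y, (if x i = y i then 1 else 0) * vwti ρ i x y * (a x * b y) =
        2 * (∑ x, ∑ y, (if x i = y i then 1 else 0) * vwti ρ i x y * (a x * b y)) +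
        2 * ∑ x, ∑ y, (if x i = y i then 1 else 0) * vwti ρ i x y *
          (a (flip i x) * b (flip i y)) := by
      rw [← e1]; ring
    rw [e2, Finset.mul_sum, Finset.mul_sum, ← Finset.sum_add_distrib]
    refine Finset.sum_congr rfl fun x _ => ?_
    rw [Finset.mul_sum, Finset.mul_sum, ← Finset.sum_add_distrib]
    refine Finset.sum_congr rfl fun y _ => ?_
    ring
  have s9 : ∑ x, ∑ y, (if x i = y i then 1 else 0) * vwti ρ i x y * (a x * b y) ≤
      ∑ x, ∑ y, vwt ρ x y * (|a x| * |b y|) := by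
    refine Finset.sum_le_sum fun x _ => Finset.sum_le_sum fun y _ => ?_
    have hw := vwti_nonneg h0 h1 i x y
    have hab : a x * b y ≤ |a x| * |b y| := by
      rw [← abs_mul]
      exact le_abs_self _
    have hab0 : 0 ≤ |a x| * |b y| := by positivity
    rw [vwt_eq ρ i]
    split_ifs
    · rw [one_mul]
      have h3 : vwti ρ i x y * (a x * b y) ≤ vwti ρ i x y * (|a x| * |b y|) :=
        mul_le_mul_of_nonneg_left hab hw
      have h4 : 0 ≤ ρ i * (vwti ρ i x y * (|a x| * |b y|)) :=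
        mul_nonneg (h0 i) (mul_nonneg hw hab0)
      linarith
    · rw [zero_mul, zero_mul]
      have h5 : 0 ≤ 1 - ρ i := by linarith [h1 i]
      positivity
  linarith

end Pool.Agent.Lib_helper93.QB
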