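import Pool.Agent.Lib_helper8.QABDyn
import Pool.Agent.Lib_helper93.QB.VCorr

/-!
# The two-copy hybrid argument with a vector of correlations

(Adapted from `Lib_helper8/QABDyn.lean`: only the correlations of the coordinates in a set `C` are
changed.)
-/

set_option autoImplicit false
set_option linter.unusedSectionVars false

open Finset
open scoped InnerProductSpace

namespace Pool.Agent.Lib_helper93.QB

open Pool.Agent.Lib_helper8.QAA

variable {I A : Type} [Fintype I] [DecidableEq I] [Fintype A] {p : ℕ}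

/-- The collision function of a family of projections. -/
noncomputable def vFn (Q : Algorithm I A p) {J : Type} [Fintype J] (T : J → Finset A)
    (s s' : ℕ) (ρ : I → ℝ) : ℝ :=
  vcorr ρ (fun x y => ∑ j, pm (T j) (Q.state s x) * pm (T j) (Q.state s' y))

/-- The basis states which look at `i`, for `i ∈ C`. -/
noncomputable def lookC (Q : Algorithm I A p) (C : Finset I) (i : I) : Finset A :=
  if i ∈ C then Q.look i else ∅

lemma pm_lookC (Q : Algorithm I A p) (C : Finset I) (i : I) (φ : EuclideanSpace ℂ A) :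
    pm (lookC Q C i) φ = if i ∈ C then pm (Q.look i) φ else 0 := by
  unfold lookC
  split_ifs
  · rfl
  · simp [pm]

lemma sum_pm_lookC (Q : Algorithm I A p) (C : Finset I) (φ : EuclideanSpace ℂ A) :
    ∑ i, pm (lookC Q C i) φ ≤ p * ‖φ‖ ^ 2 := by
  refine le_trans (Finset.sum_le_sum fun i _ => ?_) (sum_pm_look Q φ)
  rw [pm_lookC]
  split_ifs
  · exact le_rfl
  · exact pm_nonneg _ _

lemma vFn_nonneg (Q : Algorithm I A p) {J : Type} [Fintype J] (T : J → Finset A) (s s' : ℕ)
    {ρ : I → ℝ} (h0 : ∀ i, 0 ≤ ρ i) (h1 : ∀ i, ρ i ≤ 1) : 0 ≤ vFn Q T s s' ρ :=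
  vcorr_nonneg h0 h1 fun _ _ => Finset.sum_nonneg fun _ _ =>
    mul_nonneg (pm_nonneg _ _) (pm_nonneg _ _)

/-- The pointwise two-copy bound, for the coordinates in `C`. -/
lemma vpointwise_two (Q : Algorithm I A p) (C : Finset I) {J : Type} [Fintype J]
    (T : J → Finset A) {m : ℝ} (hm : 0 ≤ m) (hT : ∀ φ, ∑ j, pm (T j) φ ≤ m * ‖φ‖ ^ 2)
    (s s' : ℕ) (x y : I → Bool) :
    ∑ j, ∑ i ∈ C, |Q.am (T j) s i x| * |Q.am (T j) s' i y| ≤
      ∑ s1 ∈ Finset.range s, ∑ s2 ∈ Finset.range s', 4 * √(p * m) *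
        (√(∑ j, pm (T j) (Q.state s x) * pm (T j) (Q.state s' y)) *
          √(∑ i, pm (lookC Q C i) (Q.state s1 (flip i x)) *
            pm (lookC Q C i) (Q.state s2 (flip i y)))) := by
  classical
  obtain ⟨B, hB1, hB2⟩ := state_sub Q x s
  obtain ⟨B', hB1', hB2'⟩ := state_sub Q y s'
  set w : ℕ → I → EuclideanSpace ℂ A := fun s1 i => if i ∈ C then Q.w s1 i x else 0 with hw
  set w' : ℕ → I → EuclideanSpace ℂ A := fun s2 i => if i ∈ C then Q.w s2 i y else 0 with hw'
  have h1 : ∀ j, ∀ i ∈ C, |Q.am (T j) s i x| ≤ ∑ s1 ∈ Finset.range s,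
      ‖⟪proj (T j) (Q.state s x), B s1 (w s1 i)⟫_ℂ‖ := by
    intro j i hi
    unfold Algorithm.am
    refine (Complex.abs_re_le_norm _).trans ?_
    rw [hB2 i, inner_sum]
    refine (norm_sum_le _ _).trans (le_of_eq ?_)
    refine Finset.sum_congr rfl fun s1 _ => ?_
    simp only [hw]
    rw [if_pos hi]
  have h1' : ∀ j, ∀ i ∈ C, |Q.am (T j) s' i y| ≤ ∑ s2 ∈ Finset.range s',
      ‖⟪proj (T j) (Q.state s' y), B' s2 (w' s2 i)⟫_ℂ‖ := by
    intro j i hi
    unfold Algorithm.am
    refine (Complex.abs_re_le_norm _).trans ?_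
    rw [hB2' i, inner_sum]
    refine (norm_sum_le _ _).trans (le_of_eq ?_)
    refine Finset.sum_congr rfl fun s2 _ => ?_
    simp only [hw']
    rw [if_pos hi]
  calc ∑ j, ∑ i ∈ C, |Q.am (T j) s i x| * |Q.am (T j) s' i y|
      ≤ ∑ j, ∑ i ∈ C, (∑ s1 ∈ Finset.range s,
          ‖⟪proj (T j) (Q.state s x), B s1 (w s1 i)⟫_ℂ‖) *
          (∑ s2 ∈ Finset.range s',
            ‖⟪proj (T j) (Q.state s' y), B' s2 (w' s2 i)⟫_ℂ‖) := by
        refine Finset.sum_le_sum fun j _ => Finset.sum_le_sum fun i hi => ?_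
        exact mul_le_mul (h1 j i hi) (h1' j i hi) (abs_nonneg _)
          (Finset.sum_nonneg fun _ _ => norm_nonneg _)
    _ ≤ ∑ j, ∑ i, (∑ s1 ∈ Finset.range s,
          ‖⟪proj (T j) (Q.state s x), B s1 (w s1 i)⟫_ℂ‖) *
          (∑ s2 ∈ Finset.range s',
            ‖⟪proj (T j) (Q.state s' y), B' s2 (w' s2 i)⟫_ℂ‖) := by
        refine Finset.sum_le_sum fun j _ => ?_
        exact Finset.sum_le_sum_of_subset_of_nonneg (Finset.subset_univ _) fun i _ _ =>
          mul_nonneg (Finset.sum_nonneg fun _ _ => norm_nonneg _)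
            (Finset.sum_nonneg fun _ _ => norm_nonneg _)
    _ = ∑ s1 ∈ Finset.range s, ∑ s2 ∈ Finset.range s', ∑ j, ∑ i,
          ‖⟪proj (T j) (Q.state s x), B s1 (w s1 i)⟫_ℂ‖ *
          ‖⟪proj (T j) (Q.state s' y), B' s2 (w' s2 i)⟫_ℂ‖ := by
        simp_rw [Finset.sum_mul_sum]
        rw [Finset.sum_comm]
        have e1 : ∀ i : I, ∑ j : J, ∑ s1 ∈ Finset.range s, ∑ s2 ∈ Finset.range s',
            ‖⟪proj (T j) (Q.state s x), B s1 (w s1 i)⟫_ℂ‖ *
            ‖⟪proj (T j) (Q.state s' y), B' s2 (w' s2 i)⟫_ℂ‖ =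
            ∑ s1 ∈ Finset.range s, ∑ s2 ∈ Finset.range s', ∑ j : J,
            ‖⟪proj (T j) (Q.state s x), B s1 (w s1 i)⟫_ℂ‖ *
            ‖⟪proj (T j) (Q.state s' y), B' s2 (w' s2 i)⟫_ℂ‖ := by
          intro i
          rw [Finset.sum_comm]
          refine Finset.sum_congr rfl fun s1 _ => ?_
          rw [Finset.sum_comm]
        simp_rw [e1]
        rw [Finset.sum_comm]
        refine Finset.sum_congr rfl fun s1 _ => ?_
        rw [Finset.sum_comm]
        refine Finset.sum_congr rfl fun s2 _ => ?_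
        rw [Finset.sum_comm]
    _ ≤ _ := by
        refine Finset.sum_le_sum fun s1 _ => Finset.sum_le_sum fun s2 _ => ?_
        refine (row_column Q T hm hT (Q.state s x) (Q.state s' y) (hB1 s1) (hB1' s2)
          (fun i => w s1 i) (fun i => w' s2 i)
          (fun i a ha => by
            simp only [hw]
            split_ifs
            · exact w_apply_eq_zero Q s1 i x ha
            · rfl)).trans ?_
        have h5 : √(∑ i, ‖w s1 i‖ ^ 2 * ‖w' s2 i‖ ^ 2) ≤
            4 * √(∑ i, pm (lookC Q C i) (Q.state s1 (flip i x)) *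
              pm (lookC Q C i) (Q.state s2 (flip i y))) := by
          have h6 : ∑ i, ‖w s1 i‖ ^ 2 * ‖w' s2 i‖ ^ 2 ≤
              4 ^ 2 * ∑ i, pm (lookC Q C i) (Q.state s1 (flip i x)) *
              pm (lookC Q C i) (Q.state s2 (flip i y)) := by
            rw [Finset.mul_sum]
            refine Finset.sum_le_sum fun i _ => ?_
            simp only [hw, hw', pm_lookC]
            by_cases hi : i ∈ C
            · simp only [hi, if_true]
              calc ‖Q.w s1 i x‖ ^ 2 * ‖Q.w s2 i y‖ ^ 2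
                  ≤ (4 * pm (Q.look i) (Q.state s1 (flip i x))) *
                    (4 * pm (Q.look i) (Q.state s2 (flip i y))) :=
                    mul_le_mul (norm_w_sq Q s1 i x) (norm_w_sq Q s2 i y) (by positivity)
                      (mul_nonneg (by norm_num) (pm_nonneg _ _))
                _ = _ := by ring
            · simp [hi]
          calc √(∑ i, ‖w s1 i‖ ^ 2 * ‖w' s2 i‖ ^ 2)
              ≤ √(4 ^ 2 * ∑ i, pm (lookC Q C i) (Q.state s1 (flip i x)) *
              pm (lookC Q C i) (Q.state s2 (flip i y))) := Real.sqrt_le_sqrt h6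
            _ = _ := by
                rw [Real.sqrt_mul (by norm_num), Real.sqrt_sq (by norm_num)]
        calc _ ≤ √(p * m) * (√(∑ j, pm (T j) (Q.state s x) * pm (T j) (Q.state s' y)) *
              (4 * √(∑ i, pm (lookC Q C i) (Q.state s1 (flip i x)) *
              pm (lookC Q C i) (Q.state s2 (flip i y))))) := by gcongr
          _ = _ := by ring

/-- The upper bound of the derivative in the directions of `C`. -/
lemma vderiv_le (Q : Algorithm I A p) (C : Finset I) {J : Type} [Fintype J]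
    (T : J → Finset A) {m : ℝ} (hm : 0 ≤ m) (hT : ∀ φ, ∑ j, pm (T j) φ ≤ m * ‖φ‖ ^ 2)
    (s s' : ℕ) {ρ : I → ℝ} (h0 : ∀ i, 0 ≤ ρ i) (h1 : ∀ i, ρ i ≤ 1)
    {σ : I → ℝ} (hσ0 : ∀ i, 0 ≤ σ i) (hσ1 : ∀ i, σ i ≤ 1) (hσC : ∀ i ∉ C, σ i = 0) :
    ∑ i, σ i * vdcorr i ρ
      (fun x y => ∑ j, pm (T j) (Q.state s x) * pm (T j) (Q.state s' y)) ≤
    8 * √(p * m) * √(vFn Q T s s' ρ) *
      ∑ s1 ∈ Finset.range s, ∑ s2 ∈ Finset.range s', √(vFn Q (lookC Q C) s1 s2 ρ) := by
  -- split the sum over `j`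
  have e1 : ∀ i, vdcorr i ρ (fun x y => ∑ j, pm (T j) (Q.state s x) * pm (T j) (Q.state s' y)) =
      ∑ j, vdcorr i ρ (fun x y => pm (T j) (Q.state s x) * pm (T j) (Q.state s' y)) := by
    intro i
    unfold vdcorr
    rw [← Finset.mul_sum]
    congr 1
    symm
    rw [Finset.sum_comm]
    refine Finset.sum_congr rfl fun x _ => ?_
    rw [Finset.sum_comm]
    refine Finset.sum_congr rfl fun y _ => ?_
    rw [Finset.mul_sum]
  have h2 : ∀ i j, vdcorr i ρ (fun x y => pm (T j) (Q.state s x) * pm (T j) (Q.state s' y)) ≤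
      2 * vcorr ρ (fun x y => |Q.am (T j) s i x| * |Q.am (T j) s' i y|) := by
    intro i j
    apply vdcorr_le h0 h1
    · intro x
      have := pm_sub_eq (T j) (Q.state s x) (Q.state s (flip i x))
      unfold Algorithm.am
      rw [Lib_helper8.QAA.flip_flip]
      exact this
    · intro x
      have := re_add_re_nonneg (T j) (Q.state s x) (Q.state s (flip i x))
      unfold Algorithm.am
      rw [Lib_helper8.QAA.flip_flip]
      exact this
    · intro x
      have := pm_sub_eq (T j) (Q.state s' x) (Q.state s' (flip i x))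
      unfold Algorithm.am
      rw [Lib_helper8.QAA.flip_flip]
      exact this
    · intro x
      have := re_add_re_nonneg (T j) (Q.state s' x) (Q.state s' (flip i x))
      unfold Algorithm.am
      rw [Lib_helper8.QAA.flip_flip]
      exact this
  have h3 : ∀ i, σ i * vdcorr i ρ
      (fun x y => ∑ j, pm (T j) (Q.state s x) * pm (T j) (Q.state s' y)) ≤
      if i ∈ C then ∑ j, 2 * vcorr ρ (fun x y => |Q.am (T j) s i x| * |Q.am (T j) s' i y|)
        else 0 := by
    intro i
    split_ifs with hi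
    · rw [e1]
      have h4 : ∑ j, vdcorr i ρ (fun x y => pm (T j) (Q.state s x) * pm (T j) (Q.state s' y)) ≤
          ∑ j, 2 * vcorr ρ (fun x y => |Q.am (T j) s i x| * |Q.am (T j) s' i y|) :=
        Finset.sum_le_sum fun j _ => h2 i j
      have h5 : 0 ≤ ∑ j, 2 * vcorr ρ (fun x y => |Q.am (T j) s i x| * |Q.am (T j) s' i y|) :=
        Finset.sum_nonneg fun j _ => mul_nonneg (by norm_num)
          (vcorr_nonneg h0 h1 fun x y => mul_nonneg (abs_nonneg _) (abs_nonneg _))
      calc σ i * ∑ j, vdcorr i ρ (fun x y => pm (T j) (Q.state s x) * pm (T j) (Q.state s' y))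
          ≤ σ i * ∑ j, 2 * vcorr ρ (fun x y => |Q.am (T j) s i x| * |Q.am (T j) s' i y|) :=
            mul_le_mul_of_nonneg_left h4 (hσ0 i)
        _ ≤ 1 * ∑ j, 2 * vcorr ρ (fun x y => |Q.am (T j) s i x| * |Q.am (T j) s' i y|) :=
            mul_le_mul_of_nonneg_right (hσ1 i) h5
        _ = _ := one_mul _
    · rw [hσC i hi, zero_mul]
  calc ∑ i, σ i * vdcorr i ρ
        (fun x y => ∑ j, pm (T j) (Q.state s x) * pm (T j) (Q.state s' y))
      ≤ ∑ i, if i ∈ C then ∑ j, 2 * vcorr ρ
          (fun x y => |Q.am (T j) s i x| * |Q.am (T j) s' i y|) else 0 :=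
        Finset.sum_le_sum fun i _ => h3 i
    _ = ∑ i ∈ C, ∑ j, 2 * vcorr ρ (fun x y => |Q.am (T j) s i x| * |Q.am (T j) s' i y|) := by
        rw [← Finset.sum_filter]
        congr 1
        ext i
        simp
    _ = 2 * vcorr ρ (fun x y => ∑ j, ∑ i ∈ C, |Q.am (T j) s i x| * |Q.am (T j) s' i y|) := by
        rw [vcorr_sum, Finset.mul_sum, Finset.sum_comm]
        refine Finset.sum_congr rfl fun j _ => ?_
        rw [vcorr_sum, Finset.mul_sum]
    _ ≤ 2 * vcorr ρ (fun x y => ∑ s1 ∈ Finset.range s, ∑ s2 ∈ Finset.range s', 4 * √(p * m) *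
        (√(∑ j, pm (T j) (Q.state s x) * pm (T j) (Q.state s' y)) *
          √(∑ i, pm (lookC Q C i) (Q.state s1 (flip i x)) *
            pm (lookC Q C i) (Q.state s2 (flip i y))))) := by
        apply mul_le_mul_of_nonneg_left _ (by norm_num)
        exact vcorr_mono h0 h1 fun x y => vpointwise_two Q C T hm hT s s' x y
    _ = 2 * ∑ s1 ∈ Finset.range s, ∑ s2 ∈ Finset.range s', 4 * √(p * m) *
        vcorr ρ (fun x y => √(∑ j, pm (T j) (Q.state s x) * pm (T j) (Q.state s' y)) *
          √(∑ i, pm (lookC Q C i) (Q.state s1 (flip i x)) *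
            pm (lookC Q C i) (Q.state s2 (flip i y)))) := by
        rw [vcorr_sum]
        congr 1
        refine Finset.sum_congr rfl fun s1 _ => ?_
        rw [vcorr_sum]
        refine Finset.sum_congr rfl fun s2 _ => ?_
        rw [vcorr_const_mul]
    _ ≤ 2 * ∑ s1 ∈ Finset.range s, ∑ s2 ∈ Finset.range s', 4 * √(p * m) *
        (√(vFn Q T s s' ρ) * √(vFn Q (lookC Q C) s1 s2 ρ)) := by
        gcongr with s1 _ s2 _
        refine (vcorr_sqrt_mul_sqrt h0 h1
          (fun x y => Finset.sum_nonneg fun _ _ => mul_nonneg (pm_nonneg _ _) (pm_nonneg _ _))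
          (fun x y => Finset.sum_nonneg fun _ _ =>
            mul_nonneg (pm_nonneg _ _) (pm_nonneg _ _))).trans ?_
        apply le_of_eq
        congr 2
        unfold vFn
        rw [vcorr_sum, vcorr_sum]
        refine Finset.sum_congr rfl fun i _ => ?_
        exact vcorr_flip_both ρ i (fun x y => pm (lookC Q C i) (Q.state s1 x) *
          pm (lookC Q C i) (Q.state s2 y))
    _ = _ := by
        rw [Finset.mul_sum, Finset.mul_sum]
        refine Finset.sum_congr rfl fun s1 _ => ?_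
        rw [Finset.mul_sum, Finset.mul_sum]
        refine Finset.sum_congr rfl fun s2 _ => ?_
        ring

end Pool.Agent.Lib_helper93.QB
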