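import Pool.Agent.Lib_helper8.QABMain
import Pool.Agent.Lib_helper93.QB.VDyn

/-!
# Algorithms which query every coordinate in few rounds: the variance

The correlations are switched on class by class, in descending order of the last query of the
coordinate.
-/

set_option autoImplicit false
set_option linter.unusedSectionVars false

open Finset

namespace Pool.Agent.Lib_helper93.QB

open Pool.Agent.Lib_helper8.QAA

variable {I A : Type} [Fintype I] [DecidableEq I] [Fintype A] {p : ℕ}

/-- The coordinate `i` is queried in round `t`. -/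
def QAt (Q : Algorithm I A p) (t : ℕ) (i : I) : Prop :=
  ∃ x a, i ∈ Q.query a ∧ Q.state t x a ≠ 0

/-- The number of the rounds before round `S` in which the coordinate `i` is queried. -/
noncomputable def cnt (Q : Algorithm I A p) (S : ℕ) (i : I) : ℕ :=
  {t : ℕ | t < S ∧ QAt Q t i}.ncard

lemma cnt_finite (Q : Algorithm I A p) (S : ℕ) (i : I) : {t : ℕ | t < S ∧ QAt Q t i}.Finite :=
  (Set.finite_lt_nat S).subset fun _ h => h.1

/-- If `i` is queried in a round `t` with `l ≤ t < S` then it is queried in fewer rounds before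
`l` than before `S`. -/
lemma cnt_lt (Q : Algorithm I A p) {l S t : ℕ} {i : I} (hl : l ≤ t) (hS : t < S)
    (ht : QAt Q t i) : cnt Q l i < cnt Q S i := by
  unfold cnt
  apply Set.ncard_lt_ncard _ (cnt_finite Q S i)
  refine ⟨fun u hu => ⟨hu.1.trans (hl.trans_lt hS), hu.2⟩, fun h => ?_⟩
  have h1 := h (show t ∈ {t : ℕ | t < S ∧ QAt Q t i} from ⟨hS, ht⟩)
  exact absurd h1.1 (by omega)

lemma pm_eq_zero_of_not (Q : Algorithm I A p) {t : ℕ} {i : I} (h : ¬ QAt Q t i)
    (x : I → Bool) : pm (Q.look i) (Q.state t x) = 0 := by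
  unfold pm
  refine Finset.sum_eq_zero fun a ha => ?_
  have h1 : i ∈ Q.query a := (Finset.mem_filter.1 ha).2
  by_cases h2 : Q.state t x a = 0
  · rw [h2]; simp
  · exact absurd ⟨x, a, h1, h2⟩ h

/-- One step: the correlations `ρ0 + σ` and `ρ0`, where `σ` lives on `C`. -/
lemma step_le (Q : Algorithm I A p) (C : Finset I) {J : Type} [Fintype J]
    (T : J → Finset A) {m : ℝ} (hm : 0 ≤ m) (hT : ∀ φ, ∑ j, pm (T j) φ ≤ m * ‖φ‖ ^ 2)
    (s s' : ℕ) {ρ0 σ : I → ℝ} (h0 : ∀ i, 0 ≤ ρ0 i) (hσ0 : ∀ i, 0 ≤ σ i)
    (h1 : ∀ i, ρ0 i + σ i ≤ 1) (hσC : ∀ i ∉ C, σ i = 0) {κ : ℝ} (hκ : 0 ≤ κ)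
    (hcol : ∀ u ∈ Set.Icc (0 : ℝ) 1, ∀ s1 < s, ∀ s2 < s',
      √(vFn Q (lookC Q C) s1 s2 (fun i => ρ0 i + u * σ i)) ≤ κ) :
    √(vFn Q T s s' (fun i => ρ0 i + σ i)) ≤
      √(vFn Q T s s' ρ0) + 4 * √(p * m) * (s * s' * κ) := by
  have hr0 : ∀ u ∈ Set.Icc (0 : ℝ) 1, ∀ i, 0 ≤ ρ0 i + u * σ i := fun u hu i =>
    add_nonneg (h0 i) (mul_nonneg hu.1 (hσ0 i))
  have hr1 : ∀ u ∈ Set.Icc (0 : ℝ) 1, ∀ i, ρ0 i + u * σ i ≤ 1 := fun u hu i => by
    have h2 : u * σ i ≤ 1 * σ i := mul_le_mul_of_nonneg_right hu.2 (hσ0 i)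
    linarith [h1 i]
  have hσ1 : ∀ i, σ i ≤ 1 := fun i => by linarith [h0 i, h1 i]
  have key := sqrt_comparison
    (F := fun u : ℝ => vFn Q T s s' (fun i => ρ0 i + u * σ i))
    (F' := fun u : ℝ => ∑ i, σ i * vdcorr i (fun i => ρ0 i + u * σ i)
      (fun x y => ∑ j, pm (T j) (Q.state s x) * pm (T j) (Q.state s' y)))
    (w := fun u : ℝ => √(vFn Q T s s' ρ0) + u * (4 * √(p * m) * (s * s' * κ)))
    (w' := fun _ => 4 * √(p * m) * (s * s' * κ))
    (fun u hu => vFn_nonneg Q T s s' (hr0 u hu) (hr1 u hu))
    (fun u _ => hasDerivAt_vcorr ρ0 σ _ u)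
    (fun u _ => by
      simpa using ((hasDerivAt_id u).mul_const (4 * √(p * m) * (s * s' * κ))).const_add
        (√(vFn Q T s s' ρ0)))
    (fun u _ => by positivity)
    (fun u hu => by
      refine (vderiv_le Q C T hm hT s s' (hr0 u hu) (hr1 u hu) hσ0 hσ1 hσC).trans ?_
      have h2 : ∑ s1 ∈ Finset.range s, ∑ s2 ∈ Finset.range s',
          √(vFn Q (lookC Q C) s1 s2 (fun i => ρ0 i + u * σ i)) ≤ s * s' * κ := by
        calc _ ≤ ∑ _s1 ∈ Finset.range s, ∑ _s2 ∈ Finset.range s', κ :=
              Finset.sum_le_sum fun s1 hs1 => Finset.sum_le_sum fun s2 hs2 =>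
                hcol u hu s1 (Finset.mem_range.1 hs1) s2 (Finset.mem_range.1 hs2)
          _ = s * s' * κ := by
              simp only [Finset.sum_const, Finset.card_range, nsmul_eq_mul]
              ring
      have h3 : 0 ≤ 8 * √(p * m) * √(vFn Q T s s' (fun i => ρ0 i + u * σ i)) := by positivity
      refine (mul_le_mul_of_nonneg_left h2 h3).trans (le_of_eq ?_)
      ring)
    (by
      have h2 : (fun i => ρ0 i + 0 * σ i) = ρ0 := by
        funext i
        ring
      rw [h2]
      simp)
    1 (Set.right_mem_Icc.2 zero_le_one)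
  simp only [one_mul] at key
  exact key

/-- The constants of the induction. -/
noncomputable def KB (p r : ℕ) (θ : ℝ) : ℕ → ℝ
  | 0 => 0
  | b + 1 => 4 * p * r ^ 3 * (√θ + KB p r θ b)

lemma KB_nonneg (p r : ℕ) (θ : ℝ) (b : ℕ) : 0 ≤ KB p r θ b := by
  induction b with
  | zero => exact le_rfl
  | succ b ih =>
    show 0 ≤ 4 * (p : ℝ) * r ^ 3 * (√θ + KB p r θ b)
    positivity

lemma KB_le {p r : ℕ} (hp : 1 ≤ p) (hr : 1 ≤ r) (θ : ℝ) (b : ℕ) :
    √θ + KB p r θ b ≤ √θ * (5 * (p : ℝ) * r ^ 3) ^ b := by
  have hp' : (1 : ℝ) ≤ p := by exact_mod_cast hp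
  have hr' : (1 : ℝ) ≤ r := by exact_mod_cast hr
  have h1 : (1 : ℝ) ≤ p * r ^ 3 := by
    have : (1 : ℝ) ≤ (r : ℝ) ^ 3 := one_le_pow₀ hr'
    nlinarith
  induction b with
  | zero => simp [KB]
  | succ b ih =>
    have h2 := KB_nonneg p r θ b
    have h3 : 0 ≤ √θ + KB p r θ b := by positivity
    calc √θ + KB p r θ (b + 1) = √θ + 4 * (p * r ^ 3) * (√θ + KB p r θ b) := by
          show √θ + 4 * (p : ℝ) * r ^ 3 * (√θ + KB p r θ b) = _
          ring
      _ ≤ (√θ + KB p r θ b) + 4 * (p * r ^ 3) * (√θ + KB p r θ b) := by linarith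
      _ = (1 + 4 * (p * r ^ 3)) * (√θ + KB p r θ b) := by ring
      _ ≤ (5 * (p * r ^ 3)) * (√θ + KB p r θ b) := by
          apply mul_le_mul_of_nonneg_right _ h3
          linarith
      _ ≤ (5 * (p * r ^ 3)) * (√θ * (5 * (p : ℝ) * r ^ 3) ^ b) := by
          apply mul_le_mul_of_nonneg_left ih
          positivity
      _ = _ := by ring

/-- The collision function at correlation 0. -/
lemma sqrt_vFn_zero (Q : Algorithm I A p) {r : ℕ} {θ : ℝ} (hθ : 0 ≤ θ)
    (hlight : ∀ s < r, ∀ j, ex (fun x => pm (Q.look j) (Q.state s x)) ≤ θ)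
    (C : Finset I) {s1 s2 : ℕ} (h1 : s1 < r) :
    √(vFn Q (lookC Q C) s1 s2 (fun _ => 0)) ≤ √p * √θ := by
  rw [← Real.sqrt_mul (Nat.cast_nonneg p)]
  apply Real.sqrt_le_sqrt
  unfold vFn
  rw [vcorr_sum]
  simp_rw [vcorr_zero, pm_lookC]
  calc ∑ j, ex (fun x => if j ∈ C then pm (Q.look j) (Q.state s1 x) else 0) *
        ex (fun x => if j ∈ C then pm (Q.look j) (Q.state s2 x) else 0)
      ≤ ∑ j, θ * ex (fun x => pm (Q.look j) (Q.state s2 x)) := by
        refine Finset.sum_le_sum fun j _ => ?_
        by_cases hj : j ∈ C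
        · simp only [hj, if_true]
          exact mul_le_mul_of_nonneg_right (hlight s1 h1 j) (ex_nonneg fun x => pm_nonneg _ _)
        · simp only [hj, if_false]
          rw [ex_const, zero_mul]
          exact mul_nonneg hθ (ex_nonneg fun x => pm_nonneg _ _)
    _ = θ * ∑ j, ex (fun x => pm (Q.look j) (Q.state s2 x)) := by rw [Finset.mul_sum]
    _ ≤ θ * p := mul_le_mul_of_nonneg_left (sum_ex_pm_le' Q s2) hθ
    _ = p * θ := mul_comm _ _

/-- **The main claim.** -/
lemma claim (Q : Algorithm I A p) {r : ℕ} {θ : ℝ} (hθ : 0 ≤ θ)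
    (hlight : ∀ s < r, ∀ j, ex (fun x => pm (Q.look j) (Q.state s x)) ≤ θ) (b : ℕ) :
    ∀ (S : ℕ), S ≤ r → ∀ (ρ : I → ℝ), (∀ i, 0 ≤ ρ i) → (∀ i, ρ i ≤ 1) →
      (∀ i, ρ i ≠ 0 → cnt Q S i ≤ b) → ∀ (s s' : ℕ), s ≤ S → s' ≤ S →
      ∀ {J : Type} [Fintype J] (T : J → Finset A) {m : ℝ}, 0 ≤ m →
        (∀ φ, ∑ j, pm (T j) φ ≤ m * ‖φ‖ ^ 2) →
        √(vFn Q T s s' ρ) ≤ √(vFn Q T s s' (fun _ => 0)) + √m * KB p r θ b := by
  classical
  induction b with
  | zero =>
    intro S hS ρ h0 h1 hc s s' hs hs' J _ T m hm hT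
    have key := step_le Q (Finset.univ.filter fun i => ρ i ≠ 0) T hm hT s s' (ρ0 := fun _ => 0)
      (σ := ρ) (fun _ => le_rfl) h0 (fun i => by rw [zero_add]; exact h1 i)
      (fun i hi => by
        by_contra hcon
        exact hi (Finset.mem_filter.2 ⟨Finset.mem_univ i, hcon⟩))
      (κ := 0) le_rfl
      (fun u hu s1 hs1 s2 hs2 => by
        apply le_of_eq
        rw [Real.sqrt_eq_zero']
        apply le_of_eq
        unfold vFn
        have h2 : (fun x y : I → Bool => ∑ j, pm (lookC Q (Finset.univ.filter fun i => ρ i ≠ 0) j)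
            (Q.state s1 x) * pm (lookC Q (Finset.univ.filter fun i => ρ i ≠ 0) j)
              (Q.state s2 y)) = fun _ _ => 0 := by
          funext x y
          refine Finset.sum_eq_zero fun j _ => ?_
          rw [pm_lookC]
          split_ifs with hj
          · have h3 : cnt Q S j = 0 := Nat.le_zero.1 (hc j (Finset.mem_filter.1 hj).2)
            have h4 : ¬ QAt Q s1 j := by
              intro h5
              unfold cnt at h3
              rw [Set.ncard_eq_zero (cnt_finite Q S j)] at h3
              have h6 : s1 ∈ {t : ℕ | t < S ∧ QAt Q t j} := ⟨hs1.trans_le hs, h5⟩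
              rw [h3] at h6
              exact h6
            rw [pm_eq_zero_of_not Q h4, zero_mul]
          · rw [zero_mul]
        rw [h2]
        unfold vcorr
        simp)
    simp only [zero_add, mul_zero, add_zero] at key
    simpa [KB] using key
  | succ b ih =>
    intro S hS ρ h0 h1 hc s s' hs hs' J _ T m hm hT
    -- the correlations of the coordinates which are queried in a round `t` with `l ≤ t < S`
    set R : ℕ → I → ℝ := fun l i => if ∃ t, l ≤ t ∧ t < S ∧ QAt Q t i then ρ i else 0 with hR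
    set κ : ℝ := √p * √θ + √p * KB p r θ b with hκ
    have hκ0 : 0 ≤ κ := by
      have := KB_nonneg p r θ b
      positivity
    have hR0 : ∀ l i, 0 ≤ R l i := fun l i => by
      simp only [hR]
      split_ifs
      · exact h0 i
      · exact le_rfl
    have hstep : ∀ l, l < S → √(vFn Q T s s' (R l)) ≤ √(vFn Q T s s' (R (l + 1))) +
        4 * √(p * m) * (s * s' * κ) := by
      intro l hl
      set C : Finset I := Finset.univ.filter fun i =>
        QAt Q l i ∧ ¬ ∃ t, l + 1 ≤ t ∧ t < S ∧ QAt Q t i with hC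
      have hsplit : ∀ i, R l i = R (l + 1) i + if i ∈ C then ρ i else 0 := by
        intro i
        simp only [hR, hC, Finset.mem_filter, Finset.mem_univ, true_and]
        by_cases hA : ∃ t, l + 1 ≤ t ∧ t < S ∧ QAt Q t i
        · have hB : ∃ t, l ≤ t ∧ t < S ∧ QAt Q t i := by
            obtain ⟨t, h2, h3⟩ := hA
            exact ⟨t, by omega, h3⟩
          rw [if_pos hA, if_pos hB, if_neg (fun h => h.2 hA), add_zero]
        · by_cases hq : QAt Q l i
          · have hB : ∃ t, l ≤ t ∧ t < S ∧ QAt Q t i := ⟨l, le_rfl, hl, hq⟩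
            rw [if_neg hA, if_pos hB, if_pos ⟨hq, hA⟩, zero_add]
          · have hB : ¬ ∃ t, l ≤ t ∧ t < S ∧ QAt Q t i := by
              rintro ⟨t, h2, h3, h4⟩
              rcases h2.eq_or_lt with h5 | h5
              · subst h5
                exact hq h4
              · exact hA ⟨t, h5, h3, h4⟩
            rw [if_neg hA, if_neg hB, if_neg (fun h => hq h.1), add_zero]
      have hRl : R l = fun i => R (l + 1) i + if i ∈ C then ρ i else 0 := funext hsplit
      rw [hRl]
      refine step_le Q C T hm hT s s' (hR0 (l + 1)) (fun i => ?_) (fun i => ?_) (fun i hi => ?_)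
        hκ0 (fun u hu s1 hs1 s2 hs2 => ?_)
      · split_ifs
        · exact h0 i
        · exact le_rfl
      · rw [← hsplit i]
        simp only [hR]
        split_ifs
        · exact h1 i
        · exact zero_le_one
      · rw [if_neg hi]
      · have hs1' : s1 < S := hs1.trans_le hs
        have hs2' : s2 < S := hs2.trans_le hs'
        -- the coordinates in `C` are not queried between `l` and `S`
        have hCz : ∀ t, l < t → t < S → ∀ i ∈ C, ¬ QAt Q t i := by
          intro t h2 h3 i hi h4
          exact (Finset.mem_filter.1 hi).2.2 ⟨t, h2, h3, h4⟩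
        by_cases hcase : s1 ≤ l ∧ s2 ≤ l
        · obtain ⟨hl1, hl2⟩ := hcase
          have hb0 : ∀ i, 0 ≤ R (l + 1) i + u * (if i ∈ C then ρ i else 0) := fun i => by
            refine add_nonneg (hR0 (l + 1) i) (mul_nonneg hu.1 ?_)
            split_ifs
            · exact h0 i
            · exact le_rfl
          have hb1 : ∀ i, R (l + 1) i + u * (if i ∈ C then ρ i else 0) ≤ 1 := fun i => by
            have h2 : R (l + 1) i + (if i ∈ C then ρ i else 0) ≤ 1 := by
              rw [← hsplit i]
              simp only [hR]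
              split_ifs
              · exact h1 i
              · exact zero_le_one
            have h3 : 0 ≤ (if i ∈ C then ρ i else 0) := by
              split_ifs
              · exact h0 i
              · exact le_rfl
            have h4 : u * (if i ∈ C then ρ i else 0) ≤ 1 * (if i ∈ C then ρ i else 0) :=
              mul_le_mul_of_nonneg_right hu.2 h3
            linarith
          have h2 := ih l (hl.le.trans hS) (fun i => R (l + 1) i + u * (if i ∈ C then ρ i else 0))
            hb0 hb1 (fun i hi => by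
              have h3 : (∃ t, l ≤ t ∧ t < S ∧ QAt Q t i) ∧ ρ i ≠ 0 := by
                by_cases hA : ∃ t, l + 1 ≤ t ∧ t < S ∧ QAt Q t i
                · refine ⟨?_, fun h => ?_⟩
                  · obtain ⟨t, h4, h5⟩ := hA
                    exact ⟨t, by omega, h5⟩
                  · apply hi
                    simp [hR, h]
                · by_cases hiC : i ∈ C
                  · refine ⟨⟨l, le_rfl, hl, (Finset.mem_filter.1 hiC).2.1⟩, fun h => ?_⟩
                    apply hi
                    simp [hR, h]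
                  · exfalso
                    apply hi
                    simp only [hR]
                    rw [if_neg hA, if_neg hiC]
                    ring
              obtain ⟨⟨t, h4, h5, h6⟩, h7⟩ := h3
              have h8 := cnt_lt Q h4 h5 h6
              have h9 := hc i h7
              omega)
            s1 s2 hl1 hl2 (lookC Q C) (m := p) (Nat.cast_nonneg p)
            (fun φ => sum_pm_lookC Q C φ)
          refine h2.trans ?_
          have h3 := sqrt_vFn_zero Q hθ hlight C (s2 := s2) (hs1'.trans_le hS)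
          rw [hκ]
          linarith
        · -- the collision function is zero
          have hz : vFn Q (lookC Q C) s1 s2
              (fun i => R (l + 1) i + u * (if i ∈ C then ρ i else 0)) = 0 := by
            unfold vFn
            have h2 : (fun x y : I → Bool => ∑ j, pm (lookC Q C j) (Q.state s1 x) *
                pm (lookC Q C j) (Q.state s2 y)) = fun _ _ => 0 := by
              funext x y
              refine Finset.sum_eq_zero fun j _ => ?_
              rw [pm_lookC, pm_lookC]
              by_cases hj : j ∈ C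
              · rw [if_pos hj, if_pos hj]
                rw [not_and_or] at hcase
                rcases hcase with h3 | h3
                · rw [pm_eq_zero_of_not Q (hCz s1 (not_le.1 h3) hs1' j hj), zero_mul]
                · rw [pm_eq_zero_of_not Q (hCz s2 (not_le.1 h3) hs2' j hj), mul_zero]
              · rw [if_neg hj, zero_mul]
            rw [h2]
            unfold vcorr
            simp
          rw [hz, Real.sqrt_zero]
          exact hκ0
    -- all the steps
    have hall : ∀ k, k ≤ S → √(vFn Q T s s' (R (S - k))) ≤ √(vFn Q T s s' (R S)) +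
        k * (4 * √(p * m) * (s * s' * κ)) := by
      intro k
      induction k with
      | zero => intro _; simp
      | succ k ihk =>
        intro hk
        have h2 := ihk (by omega)
        have h3 := hstep (S - (k + 1)) (by omega)
        have h4 : S - (k + 1) + 1 = S - k := by omega
        rw [h4] at h3
        push_cast
        linarith
    have hRS : R S = fun _ => 0 := by
      funext i
      simp only [hR]
      rw [if_neg]
      rintro ⟨t, h2, h3, -⟩
      omega
    have h2 := hall S le_rfl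
    rw [Nat.sub_self, hRS] at h2
    -- the coordinates which are never queried
    have hfin : √(vFn Q T s s' ρ) ≤ √(vFn Q T s s' (R 0)) := by
      set C : Finset I := Finset.univ.filter fun i => ¬ ∃ t, 0 ≤ t ∧ t < S ∧ QAt Q t i with hC
      have hsplit : ρ = fun i => R 0 i + if i ∈ C then ρ i else 0 := by
        funext i
        simp only [hR, hC, Finset.mem_filter, Finset.mem_univ, true_and]
        by_cases hA : ∃ t, 0 ≤ t ∧ t < S ∧ QAt Q t i
        · rw [if_pos hA, if_neg (fun h => h hA), add_zero]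
        · rw [if_neg hA, if_pos hA, zero_add]
      have key := step_le Q C T hm hT s s' (ρ0 := R 0) (σ := fun i => if i ∈ C then ρ i else 0)
        (hR0 0) (fun i => by
          split_ifs
          · exact h0 i
          · exact le_rfl)
        (fun i => by
          have := congrFun hsplit i
          rw [← this]
          exact h1 i)
        (fun i hi => if_neg hi) (κ := 0) le_rfl
        (fun u hu s1 hs1 s2 hs2 => by
          apply le_of_eq
          rw [Real.sqrt_eq_zero']
          apply le_of_eq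
          unfold vFn
          have h3 : (fun x y : I → Bool => ∑ j, pm (lookC Q C j) (Q.state s1 x) *
              pm (lookC Q C j) (Q.state s2 y)) = fun _ _ => 0 := by
            funext x y
            refine Finset.sum_eq_zero fun j _ => ?_
            rw [pm_lookC]
            split_ifs with hj
            · have h4 : ¬ QAt Q s1 j := fun h5 =>
                (Finset.mem_filter.1 hj).2 ⟨s1, Nat.zero_le _, hs1.trans_le hs, h5⟩
              rw [pm_eq_zero_of_not Q h4, zero_mul]
            · rw [zero_mul]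
          rw [h3]
          unfold vcorr
          simp)
      rw [← hsplit] at key
      simpa using key
    refine hfin.trans (h2.trans ?_)
    -- the constants
    have hs0 : (s : ℝ) ≤ r := by exact_mod_cast hs.trans hS
    have hs0' : (s' : ℝ) ≤ r := by exact_mod_cast hs'.trans hS
    have hS0 : (S : ℝ) ≤ r := by exact_mod_cast hS
    have h3 : (S : ℝ) * (4 * √(p * m) * (s * s' * κ)) ≤ r * (4 * √(p * m) * (r * r * κ)) := by
      gcongr
    have h4 : r * (4 * √(p * m) * (r * r * κ)) = √m * KB p r θ (b + 1) := by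
      show _ = √m * (4 * (p : ℝ) * r ^ 3 * (√θ + KB p r θ b))
      rw [hκ, Real.sqrt_mul (Nat.cast_nonneg p)]
      have h5 : √(p : ℝ) * √(p : ℝ) = p := Real.mul_self_sqrt (Nat.cast_nonneg p)
      calc (r : ℝ) * (4 * (√p * √m) * (r * r * (√p * √θ + √p * KB p r θ b)))
          = √m * (4 * (√p * √p) * r ^ 3 * (√θ + KB p r θ b)) := by ring
        _ = _ := by rw [h5]
    linarith

/-- The variance of the acceptance probability, if all query magnitudes are small and every
coordinate is queried in at most `b` rounds. -/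
lemma variance_rounds (Q : Algorithm I A p) (hp : 1 ≤ p) {r : ℕ} (hr : 1 ≤ r) {θ : ℝ}
    (hθ : 0 ≤ θ) (hlight : ∀ s < r, ∀ j, ex (fun x => pm (Q.look j) (Q.state s x)) ≤ θ)
    {b : ℕ} (hb : ∀ i, cnt Q r i ≤ b) :
    ex (fun x => Q.prob r x ^ 2) - ex (Q.prob r) ^ 2 ≤ 2 * √θ * (5 * (p : ℝ) * r ^ 3) ^ b := by
  set T : Unit → Finset A := fun _ => Q.accept with hTdef
  have hT : ∀ φ : EuclideanSpace ℂ A, ∑ j, pm (T j) φ ≤ (1 : ℝ) * ‖φ‖ ^ 2 := by
    intro φ
    simp only [hTdef, Finset.univ_unique, Finset.sum_singleton, one_mul]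
    exact pm_le _ _
  have hF1 : vFn Q T r r (fun _ => 1) = ex (fun x => Q.prob r x ^ 2) := by
    unfold vFn
    rw [vcorr_one]
    congr 1
    funext x
    simp only [hTdef, Finset.univ_unique, Finset.sum_singleton]
    rw [← sq]
    rfl
  have hF0 : vFn Q T r r (fun _ => 0) = ex (Q.prob r) ^ 2 := by
    unfold vFn
    simp only [hTdef, Finset.univ_unique, Finset.sum_singleton]
    rw [vcorr_zero (fun x => pm Q.accept (Q.state r x)) (fun x => pm Q.accept (Q.state r x)), ← sq]
    rfl
  have key := claim Q hθ hlight b r le_rfl (fun _ => 1) (fun _ => zero_le_one) (fun _ => le_rfl)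
    (fun i _ => hb i) r r le_rfl le_rfl T zero_le_one hT
  rw [hF1, hF0, Real.sqrt_one, one_mul] at key
  have h1 : ∀ x, |Q.prob r x| ≤ 1 := abs_prob_le' Q r
  have h2 : |ex (Q.prob r)| ≤ 1 := by
    refine (abs_ex_le _).trans ?_
    have := ex_mono h1
    rwa [ex_const] at this
  have h3 : ex (fun x => Q.prob r x ^ 2) ≤ 1 := by
    have : ∀ x, Q.prob r x ^ 2 ≤ 1 := fun x => by
      rw [← sq_abs]
      exact pow_le_one₀ (abs_nonneg _) (h1 x)
    have h4 := ex_mono this
    rwa [ex_const] at h4
  have h4 : ex (Q.prob r) ^ 2 ≤ 1 := by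
    rw [← sq_abs]
    exact pow_le_one₀ (abs_nonneg _) h2
  have h5 : 0 ≤ ex (fun x => Q.prob r x ^ 2) := ex_nonneg fun x => sq_nonneg _
  set a := ex (fun x => Q.prob r x ^ 2) with ha
  set c := ex (Q.prob r) ^ 2 with hc
  have hc0 : 0 ≤ c := sq_nonneg _
  have e1 : √a * √a = a := Real.mul_self_sqrt h5
  have e2 : √c * √c = c := Real.mul_self_sqrt hc0
  have e3 : √a ≤ 1 := Real.sqrt_le_one.2 h3
  have e4 : √c ≤ 1 := Real.sqrt_le_one.2 h4
  have e5 := Real.sqrt_nonneg a
  have e6 := Real.sqrt_nonneg c
  have e7 := KB_nonneg p r θ b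
  have e8 := KB_le hp hr θ b
  have e9 := Real.sqrt_nonneg θ
  have h6 : a - c ≤ 2 * KB p r θ b := by
    have h7 : a - c = (√a - √c) * (√a + √c) := by
      have : (√a - √c) * (√a + √c) = √a * √a - √c * √c := by ring
      rw [this, e1, e2]
    rw [h7]
    rcases le_total (√a) (√c) with h8 | h8
    · have h9 : (√a - √c) * (√a + √c) ≤ 0 :=
        mul_nonpos_of_nonpos_of_nonneg (by linarith) (by linarith)
      linarith
    · calc (√a - √c) * (√a + √c) ≤ (√a - √c) * 2 :=
            mul_le_mul_of_nonneg_left (by linarith) (by linarith)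
        _ ≤ KB p r θ b * 2 := mul_le_mul_of_nonneg_right (by linarith) (by norm_num)
        _ = _ := by ring
  calc a - c ≤ 2 * KB p r θ b := h6
    _ ≤ 2 * (√θ * (5 * (p : ℝ) * r ^ 3) ^ b) := by linarith
    _ = _ := by ring

end Pool.Agent.Lib_helper93.QB
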