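import Pool.Agent.Lib_helper93.QB.VClaim
import Pool.Agent.Lib_helper90.QW.Main
import Pool.Agent.Lib_helper93.QSim.Main

/-!
# The decision tree for a class of algorithms which is closed under restriction
-/

set_option autoImplicit false
set_option linter.unusedSectionVars false

open Finset

namespace Pool.Agent.Lib_helper93.QB

open Pool.Agent.Lib_helper8.QAA

variable {I A : Type} [Fintype I] [DecidableEq I] [Fintype A] {p : ℕ}

lemma QAt_set (Q : Algorithm I A p) (i : I) (c : Bool) {t : ℕ} {j : I}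
    (h : QAt (Q.set i c) t j) : QAt Q t j := by
  obtain ⟨x, a, h1, h2⟩ := h
  rw [set_state] at h2
  exact ⟨Function.update x i c, a, (Finset.mem_erase.1 h1).2, h2⟩

lemma cnt_set (Q : Algorithm I A p) (i : I) (c : Bool) (S : ℕ) (j : I) :
    cnt (Q.set i c) S j ≤ cnt Q S j :=
  Set.ncard_le_ncard (fun _ h => ⟨h.1, QAt_set Q i c h.2⟩) (cnt_finite Q S j)

/-- The acceptance probability is approximated by a decision tree of small expected depth, for
algorithms with the property `P`. -/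
lemma treeP (P : Algorithm I A p → Prop) (hP : ∀ Q i c, P Q → P (Q.set i c)) (r : ℕ) {θ ε : ℝ}
    (hθ : 0 < θ)
    (hε : ∀ Q : Algorithm I A p, P Q →
      (∀ s < r, ∀ j, ex (fun x => pm (Q.look j) (Q.state s x)) ≤ θ) →
      ex (fun x => Q.prob r x ^ 2) - ex (Q.prob r) ^ 2 ≤ ε)
    (n : ℕ) : ∀ Q : Algorithm I A p, P Q → Q.act.card ≤ n →
    ∃ g : (I → Bool) → ℝ, CompE (Q.mag r / θ) g ∧ (∀ x, |g x| ≤ 1) ∧
      ex (fun x => (Q.prob r x - g x) ^ 2) ≤ ε ∧ ∀ i ∉ Q.act, ∀ x, g (flip i x) = g x := by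
  have leaf : ∀ Q : Algorithm I A p, P Q →
      (∀ s < r, ∀ j, ex (fun x => pm (Q.look j) (Q.state s x)) ≤ θ) →
      ∃ g : (I → Bool) → ℝ, CompE (Q.mag r / θ) g ∧ (∀ x, |g x| ≤ 1) ∧
      ex (fun x => (Q.prob r x - g x) ^ 2) ≤ ε ∧ ∀ i ∉ Q.act, ∀ x, g (flip i x) = g x := by
    intro Q hPQ hl
    refine ⟨fun _ => ex (Q.prob r), CompE.leaf _ _ _ (div_nonneg (mag_nonneg Q r) hθ.le)
      (fun _ => rfl), fun _ => ?_, ?_, fun _ _ _ => rfl⟩
    · refine (abs_ex_le _).trans ?_
      have := ex_mono (abs_prob_le' Q r)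
      rwa [ex_const] at this
    · rw [Lib_helper90.QW.var_eq]
      exact hε Q hPQ hl
  induction n with
  | zero =>
    intro Q hPQ hQ
    have hact : Q.act = ∅ := Finset.card_eq_zero.1 (Nat.le_zero.1 hQ)
    refine leaf Q hPQ fun s _ j => ?_
    rw [look_eq_empty Q (by rw [hact]; simp)]
    simp only [pm, Finset.sum_empty]
    rw [ex_const]
    exact hθ.le
  | succ n ih =>
    intro Q hPQ hQ
    by_cases hlight : ∀ s < r, ∀ j, ex (fun x => pm (Q.look j) (Q.state s x)) ≤ θ
    · exact leaf Q hPQ hlight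
    · push Not at hlight
      obtain ⟨s, hs, i, hi⟩ := hlight
      have hact : i ∈ Q.act := by
        by_contra hcon
        rw [look_eq_empty Q hcon] at hi
        simp only [pm, Finset.sum_empty] at hi
        rw [ex_const] at hi
        linarith
      have hcard : ∀ b, (Q.set i b).act.card ≤ n := by
        intro b
        have h1 := Finset.card_le_card (act_set Q i b)
        rw [Finset.card_erase_of_mem hact] at h1
        omega
      obtain ⟨g0, a1, a2, a3, a4⟩ := ih (Q.set i false) (hP Q i false hPQ) (hcard false)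
      obtain ⟨g1, b1, b2, b3, b4⟩ := ih (Q.set i true) (hP Q i true hPQ) (hcard true)
      have hi0 : ∀ b, i ∉ (Q.set i b).act := fun b h =>
        (Finset.mem_erase.1 (act_set Q i b h)).1 rfl
      refine ⟨fun x => if x i then g1 x else g0 x, ?_, ?_, ?_, ?_⟩
      · refine CompE.node _ _ _ i _ g0 g1 ?_ a1 b1 (a4 i (hi0 false)) (b4 i (hi0 true))
          (fun _ => rfl)
        have h1 := mag_set Q i r
        have h2 : θ ≤ ∑ s ∈ Finset.range r, ex (fun x => pm (Q.look i) (Q.state s x)) := by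
          refine hi.le.trans ?_
          exact Finset.single_le_sum
            (f := fun s => ex (fun x => pm (Q.look i) (Q.state s x)))
            (fun _ _ => ex_nonneg fun _ => pm_nonneg _ _) (Finset.mem_range.2 hs)
        have h3 : 1 + ((Q.set i false).mag r / θ + (Q.set i true).mag r / θ) / 2 =
            (θ + ((Q.set i false).mag r + (Q.set i true).mag r) / 2) / θ := by
          field_simp
        rw [h3, h1]
        apply div_le_div_of_nonneg_right _ hθ.le
        linarith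
      · intro x
        dsimp only
        split_ifs
        · exact b2 x
        · exact a2 x
      · have hu : ∀ (b : Bool) (x : I → Bool),
            Function.update (flip i x) i b = Function.update x i b := by
          intro b x
          simp [Pool.Agent.Lib_helper8.QAA.flip]
        have key : ex (fun x => (Q.prob r x - (if x i then g1 x else g0 x)) ^ 2) =
            (ex (fun x => ((Q.set i false).prob r x - g0 x) ^ 2) +
              ex (fun x => ((Q.set i true).prob r x - g1 x) ^ 2)) / 2 := by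
          simp_rw [set_prob]
          rw [← ex_ite (i := i)
            (F := fun x => (Q.prob r (Function.update x i false) - g0 x) ^ 2)
            (G := fun x => (Q.prob r (Function.update x i true) - g1 x) ^ 2)
            (fun x => by rw [hu, a4 i (hi0 false)]) (fun x => by rw [hu, b4 i (hi0 true)])]
          congr 1
          funext x
          cases hx : x i with
          | true => rw [← hx, Function.update_eq_self]; simp [hx]
          | false => rw [← hx, Function.update_eq_self]; simp [hx]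
        rw [key]
        linarith
      · intro j hj x
        have hji : j ≠ i := by
          rintro rfl
          exact hj hact
        have hj' : ∀ b, j ∉ (Q.set i b).act := fun b h =>
          hj (Finset.mem_erase.1 (act_set Q i b h)).2
        dsimp only
        rw [flip_apply_of_ne hji.symm, a4 j (hj' false), b4 j (hj' true)]

/-- The bound `min ((16 p)^(2 r)) ((5 p r^3)^(2 b)) (exp (140 (log (2 p r))^2))`. -/
noncomputable def MB (p r b : ℕ) : ℝ :=
  min (min ((16 * (p : ℝ)) ^ (2 * r)) ((5 * (p : ℝ) * r ^ 3) ^ (2 * b)))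
    (Real.exp (140 * Real.log (2 * p * r) ^ 2))

lemma MB_pos {p r : ℕ} (hp : 1 ≤ p) (hr : 1 ≤ r) (b : ℕ) : 0 < MB p r b := by
  have hp0 : (0 : ℝ) < p := by exact_mod_cast hp
  have hr0 : (0 : ℝ) < r := by exact_mod_cast hr
  unfold MB
  exact lt_min (lt_min (by positivity) (by positivity)) (Real.exp_pos _)

/-- All growth constants. -/
lemma exists_LB (hp : 1 ≤ p) {r : ℕ} (hr : 1 ≤ r) (b : ℕ) (Q : Algorithm I A p)
    (hb : ∀ i, cnt Q r i ≤ b) : ∃ L : ℝ, 0 < L ∧ L ^ 2 ≤ MB p r b ∧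
    ∀ (θ : ℝ), 0 < θ → ∃ g : (I → Bool) → ℝ, CompE (r * p / θ) g ∧ (∀ x, |g x| ≤ 1) ∧
      ex (fun x => (Q.prob r x - g x) ^ 2) ≤ 2 * √θ * L := by
  have hp0 : (0 : ℝ) < p := by exact_mod_cast hp
  have hr0 : (0 : ℝ) < r := by exact_mod_cast hr
  unfold MB
  rcases le_total (min ((16 * (p : ℝ)) ^ (2 * r)) ((5 * (p : ℝ) * r ^ 3) ^ (2 * b)))
    (Real.exp (140 * Real.log (2 * p * r) ^ 2)) with hmin | hmin
  · rw [min_eq_left hmin]
    rcases le_total ((16 * (p : ℝ)) ^ (2 * r)) ((5 * (p : ℝ) * r ^ 3) ^ (2 * b)) with h2 | h2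
    · rw [min_eq_left h2]
      have hW := Lib_helper93.QSim.Wf_pos hp r
      refine ⟨Wf r p r r 1, hW, ?_, fun θ hθ => ?_⟩
      · calc Wf r p r r 1 ^ 2 ≤ ((16 * (p : ℝ)) ^ r) ^ 2 := by
              have := Wf_le_pow hp r
              gcongr
          _ = _ := by rw [← pow_mul, mul_comm r 2]
      · obtain ⟨g, h1, h1', h3, -⟩ := main_tree hp r (ε := 2 * √θ * Wf r p r r 1) hθ le_rfl
          Q.act.card Q le_rfl
        refine ⟨g, compE_mono h1 ?_, h1', h3⟩
        have := mag_le Q r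
        gcongr
    · rw [min_eq_right h2]
      refine ⟨(5 * (p : ℝ) * r ^ 3) ^ b, by positivity, ?_, fun θ hθ => ?_⟩
      · rw [← pow_mul, mul_comm b 2]
      · obtain ⟨g, h1, h1', h3, -⟩ := treeP (fun Q : Algorithm I A p => ∀ i, cnt Q r i ≤ b)
          (fun Q i c h j => (cnt_set Q i c r j).trans (h j)) r
          (ε := 2 * √θ * (5 * (p : ℝ) * r ^ 3) ^ b) hθ
          (fun Q hPQ hl => variance_rounds Q hp hr hθ.le hl hPQ) Q.act.card Q hb le_rfl
        refine ⟨g, compE_mono h1 ?_, h1', h3⟩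
        have := mag_le Q r
        gcongr
  · rw [min_eq_right hmin]
    refine ⟨Lib_helper90.QW.LL p r, Lib_helper90.QW.LL_pos hp hr, ?_, fun θ hθ => ?_⟩
    · have hL := Lib_helper90.QW.LL_le hp hr
      have hL0 := Lib_helper90.QW.LL_pos hp hr
      calc Lib_helper90.QW.LL p r ^ 2 ≤ Real.exp (70 * Real.log (2 * p * r) ^ 2) ^ 2 := by gcongr
        _ = _ := by
            rw [← Real.exp_nat_mul]
            congr 1
            push_cast
            ring
    · obtain ⟨g, h1, h1', h3, -⟩ := Lib_helper90.QW.main_tree' (I := I) (A := A) (p := p) r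
        (ε := 2 * √θ * Lib_helper90.QW.LL p r) hθ
        (fun Q hQ => Lib_helper90.QW.variance_light' Q hp hr hθ hQ) Q.act.card Q le_rfl
      refine ⟨g, compE_mono h1 ?_, h1', h3⟩
      have := mag_le Q r
      gcongr

/-- **The Aaronson–Ambainis inequality.** -/
theorem aa_rounds (hp : 1 ≤ p) {r : ℕ} (hr : 1 ≤ r) (b : ℕ) (Q : Algorithm I A p)
    (hb : ∀ i, cnt Q r i ≤ b) {v : ℝ} (hv : 0 < v)
    (hvar : ex (fun x => Q.prob r x ^ 2) - ex (Q.prob r) ^ 2 = v) :
    ∃ i, v ^ 6 / (2 ^ 16 * r ^ 2 * p ^ 2 * MB p r b ^ 2) ≤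
      ex (fun x => ((Q.prob r x - Q.prob r (Lib_helper8.QAA.flip i x)) / 2) ^ 2) := by
  obtain ⟨L, hL, hLM, h⟩ := exists_LB hp hr b Q hb
  have hp0 : (0 : ℝ) < p := by exact_mod_cast hp
  have hr0 : (0 : ℝ) < r := by exact_mod_cast hr
  set θ : ℝ := (v / (8 * L)) ^ 2 with hθ
  have hθ0 : 0 < θ := by positivity
  have hsq : √θ = v / (8 * L) := Real.sqrt_sq (by positivity)
  have hε : 2 * √θ * L = v / 4 := by
    rw [hsq]
    field_simp
    norm_num
  obtain ⟨g, h1, h2, h3⟩ := h θ hθ0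
  rw [hε] at h3
  set B : ℝ := v * θ / (2 * r * p) with hB
  have hB0 : 0 ≤ B := by positivity
  have hBK : B * (r * p / θ) < v := by
    calc B * (r * p / θ) = v / 2 := by rw [hB]; field_simp
      _ < v := by linarith
  obtain ⟨i, hi⟩ := influence_of_compE hv hvar h1 h2 h3 hB0 hBK
  refine ⟨i, le_trans ?_ hi⟩
  have hM := MB_pos hp hr b
  have h4 : L ^ 4 ≤ MB p r b ^ 2 := by
    calc L ^ 4 = (L ^ 2) ^ 2 := by ring
      _ ≤ _ := by gcongr
  calc v ^ 6 / (2 ^ 16 * r ^ 2 * p ^ 2 * MB p r b ^ 2)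
      ≤ v ^ 6 / (2 ^ 16 * r ^ 2 * p ^ 2 * L ^ 4) := by gcongr
    _ = B ^ 2 / 4 := by
        rw [hB, hθ]
        field_simp
        norm_num

/-- **Classical simulation on most inputs.** -/
theorem sim_rounds (hp : 1 ≤ p) {r : ℕ} (hr : 1 ≤ r) (b : ℕ) (Q : Algorithm I A p)
    (hb : ∀ i, cnt Q r i ≤ b) {ε δ : ℝ} (hε : 0 < ε) (hδ : 0 < δ) :
    ∃ t : Lib_helper93.QSim.DTree I ℝ,
      (t.depth : ℝ) ≤ 32 * p * r * MB p r b / (ε ^ 4 * δ ^ 3) ∧
      Lib_helper93.QSim.pr {x | ε < |Q.prob r x - t.eval x|} ≤ δ := by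
  obtain ⟨L, hL, hLM, h⟩ := exists_LB hp hr b Q hb
  have hp0 : (0 : ℝ) < p := by exact_mod_cast hp
  have hr0 : (0 : ℝ) < r := by exact_mod_cast hr
  set θ : ℝ := (ε ^ 2 * δ / (4 * L)) ^ 2 with hθ
  have hθ0 : 0 < θ := by positivity
  have hsq : √θ = ε ^ 2 * δ / (4 * L) := Real.sqrt_sq (by positivity)
  obtain ⟨g, h1, -, h2⟩ := h θ hθ0
  have he : 2 * √θ * L = ε ^ 2 * δ / 2 := by
    rw [hsq]
    field_simp
    norm_num
  rw [he] at h2
  set K : ℝ := r * p / θ with hK
  have hK0 : 0 < K := by positivity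
  obtain ⟨t, ht1, ht2⟩ := Lib_helper93.QSim.sim_of_compE h1 h2 hε ⌊2 * K / δ⌋₊
  refine ⟨t, ?_, ht2.trans ?_⟩
  · have h3 : (t.depth : ℝ) ≤ 2 * K / δ :=
      le_trans (by exact_mod_cast ht1) (Nat.floor_le (by positivity))
    refine h3.trans ?_
    have h4 : 2 * K / δ = 32 * p * r * L ^ 2 / (ε ^ 4 * δ ^ 3) := by
      rw [hK, hθ]
      field_simp
      ring
    rw [h4]
    gcongr
  · have h3 : 2 * K / δ < (⌊2 * K / δ⌋₊ : ℝ) + 1 := Nat.lt_floor_add_one _
    have h4 : ε ^ 2 * δ / 2 / ε ^ 2 = δ / 2 := by field_simp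
    have h5 : K / ((⌊2 * K / δ⌋₊ : ℝ) + 1) ≤ δ / 2 := by
      rw [div_le_iff₀ (by positivity)]
      rw [div_lt_iff₀ hδ] at h3
      linarith
    linarith

open Lib_helper93.QSim in
/-- Algorithms which compute a function on most inputs. -/
theorem sim_rounds_bool (hp : 1 ≤ p) {r : ℕ} (hr : 1 ≤ r) (b : ℕ) (Q : Algorithm I A p)
    (hb : ∀ i, cnt Q r i ≤ b) (F : (I → Bool) → Bool) {δ : ℝ} (hδ : 0 < δ) :
    ∃ t : DTree I Bool, (t.depth : ℝ) ≤ 2 ^ 17 * p * r * MB p r b / δ ^ 3 ∧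
      pr {x | t.eval x ≠ F x} ≤ δ + pr {x | ¬ ((F x = true → 2 / 3 ≤ Q.prob r x) ∧
        (F x = false → Q.prob r x ≤ 1 / 3))} := by
  classical
  obtain ⟨t, ht1, ht2⟩ := sim_rounds hp hr b Q hb (ε := 1 / 7) (δ := δ) (by norm_num) hδ
  have hM : 0 < MB p r b := MB_pos hp hr b
  refine ⟨t.map (fun c => decide (1 / 2 ≤ c)), ?_, ?_⟩
  · rw [map_depth]
    refine ht1.trans ?_
    have hX : 0 ≤ p * r * MB p r b / δ ^ 3 := by positivity
    have e1 : 32 * p * r * MB p r b / ((1 / 7 : ℝ) ^ 4 * δ ^ 3) =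
        (32 * 7 ^ 4) * (p * r * MB p r b / δ ^ 3) := by
      field_simp
    have e2 : 2 ^ 17 * p * r * MB p r b / δ ^ 3 = 2 ^ 17 * (p * r * MB p r b / δ ^ 3) := by ring
    rw [e1, e2]
    nlinarith
  · refine (pr_mono (B := {x | 1 / 7 < |Q.prob r x - t.eval x|} ∪
      {x | ¬ ((F x = true → 2 / 3 ≤ Q.prob r x) ∧ (F x = false → Q.prob r x ≤ 1 / 3))})
      ?_).trans ((pr_union _ _).trans (by linarith))
    intro x hx
    have hx' : (t.map (fun c => decide (1 / 2 ≤ c))).eval x ≠ F x := hx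
    rw [map_eval] at hx'
    by_contra hcon
    rw [Set.mem_union, not_or] at hcon
    obtain ⟨c1, c2⟩ := hcon
    have c1' : |Q.prob r x - t.eval x| ≤ 1 / 7 := not_lt.1 c1
    have c2' : (F x = true → 2 / 3 ≤ Q.prob r x) ∧ (F x = false → Q.prob r x ≤ 1 / 3) := by
      by_contra h
      exact c2 h
    rw [abs_le] at c1'
    apply hx'
    cases hF : F x with
    | true =>
      have := c2'.1 hF
      rw [decide_eq_true_eq]
      linarith [c1'.2]
    | false =>
      have := c2'.2 hF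
      rw [decide_eq_false_iff_not, not_le]
      linarith [c1'.1]

end Pool.Agent.Lib_helper93.QB
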